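import Mathlib

/-!
# The Heron-type lower bound for the intrinsic volume `V₂` fails

For every `a, b > 0` with `a ≠ b` the double pyramid
`conv {a e₁, -b e₁, ± e₂, ± e₃}` violates
`V₂(K)² ≥ (1/16) (∑ ℓᵢ(K)²)² - (1/8) ∑ ℓᵢ(K)⁴`.
-/

set_option autoImplicit false

open MeasureTheory MeasureTheory.Measure
open scoped RealInnerProductSpace

namespace Pool.Agent.Results.MP_6df474_gt.HeronCounterexample

/-- The Euclidean plane. -/
abbrev E2 := EuclideanSpace ℝ (Fin 2)
/-- Euclidean three-space. -/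
abbrev E3 := EuclideanSpace ℝ (Fin 3)

/-- `V₂(K)` for a convex body `K` in three-space: half of the surface area, i.e. half of the
two-dimensional (Euclidean-normalised) Hausdorff measure of the boundary of `K`. -/
noncomputable def V2 (K : Set E3) : ℝ := (μHE[2] (frontier K)).toReal / 2

open scoped Classical in
/-- `V₁(L)` for a compact convex set `L` in the plane: half of its perimeter, i.e. half of the
one-dimensional Hausdorff measure of its boundary, if `L` has interior points, and the length of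
`L` if `L` is a (possibly degenerate or empty) segment. -/
noncomputable def V1 (L : Set E2) : ℝ :=
  if (interior L).Nonempty then (μHE[1] (frontier L)).toReal / 2 else (μHE[1] L).toReal

/-- The isometric inclusion of the plane onto the coordinate plane `eᵢ^⊥` of three-space (insert a
zero as `i`-th coordinate). -/
def incl (i : Fin 3) (y : E2) : E3 := WithLp.toLp 2 (i.insertNth (0 : ℝ) y.ofLp)

/-- The section `K ∩ eᵢ^⊥`, as a subset of the plane `eᵢ^⊥ ≅ ℝ²`. -/
def coordSection (K : Set E3) (i : Fin 3) : Set E2 := {y | incl i y ∈ K}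

/-- `ℓᵢ(K) = V₁(K ∩ eᵢ^⊥)`. -/
noncomputable def ell (K : Set E3) (i : Fin 3) : ℝ := V1 (coordSection K i)

/-- The right-hand side of the conjectured inequality. -/
noncomputable def heronRHS (K : Set E3) : ℝ :=
  (1 / 16) * (∑ i, ell K i ^ 2) ^ 2 - (1 / 8) * ∑ i, ell K i ^ 4

/-- The double pyramid with vertices `a e₁, -b e₁, ± e₂, ± e₃` (indices `0, 1, 2` in Lean). -/
noncomputable def doublePyramid (a b : ℝ) : Set E3 :=
  convexHull ℝ
    {EuclideanSpace.single 0 a, EuclideanSpace.single 0 (-b),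
     EuclideanSpace.single 1 1, EuclideanSpace.single 1 (-1),
     EuclideanSpace.single 2 1, EuclideanSpace.single 2 (-1)}

/-! ## Area of triangles -/

/-- the standard triangle -/
def T0 : Set E2 := {x | 0 ≤ x 0 ∧ 0 ≤ x 1 ∧ x 0 + x 1 ≤ 1}

lemma volume_T0 : volume T0 = ENNReal.ofReal (1/2) := by
  set S : Set (ℝ × ℝ) := {p | 0 ≤ p.1 ∧ 0 ≤ p.2 ∧ p.1 + p.2 ≤ 1} with hS
  have hSm : MeasurableSet S := by
    have : IsClosed S := by
      rw [hS]
      apply IsClosed.inter (isClosed_le continuous_const continuous_fst)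
      apply IsClosed.inter (isClosed_le continuous_const continuous_snd)
      exact isClosed_le (continuous_fst.add continuous_snd) continuous_const
    exact this.measurableSet
  have h1 : volume T0 = volume S := by
    have e1 := (EuclideanSpace.volume_preserving_symm_measurableEquiv_toLp (Fin 2))
    have e2 := (volume_preserving_finTwoArrow ℝ)
    have e3 := e2.comp e1
    rw [← e3.measure_preimage hSm.nullMeasurableSet]
    congr 1
  rw [h1, Measure.volume_eq_prod, Measure.prod_apply hSm]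
  have h2 : ∀ x : ℝ, volume (Prod.mk x ⁻¹' S) = (Set.Icc (0:ℝ) 1).indicator (fun x => ENNReal.ofReal (1 - x)) x := by
    intro x
    by_cases hx : x ∈ Set.Icc (0:ℝ) 1
    · rw [Set.indicator_of_mem hx]
      have : Prod.mk x ⁻¹' S = Set.Icc 0 (1 - x) := by
        ext y
        simp only [hS, Set.mem_preimage, Set.mem_ofPred_eq, Set.mem_Icc]
        constructor
        · rintro ⟨_, h, h'⟩; exact ⟨h, by linarith⟩
        · rintro ⟨h, h'⟩; exact ⟨hx.1, h, by linarith⟩
      rw [this, Real.volume_Icc, sub_zero]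
    · rw [Set.indicator_of_notMem hx]
      have : Prod.mk x ⁻¹' S = ∅ := by
        ext y
        simp only [hS, Set.mem_preimage, Set.mem_ofPred_eq, Set.mem_empty_iff_false, iff_false]
        rintro ⟨h0, h, h'⟩
        exact hx ⟨h0, by linarith⟩
      rw [this, measure_empty]
  simp_rw [h2]
  rw [lintegral_indicator measurableSet_Icc]
  rw [← ofReal_integral_eq_lintegral_ofReal]
  · congr 1
    rw [integral_Icc_eq_integral_Ioc, ← intervalIntegral.integral_of_le zero_le_one]
    rw [intervalIntegral.integral_sub (by simp) (by simp)]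
    simp
    norm_num
  · exact (continuous_const.sub continuous_id).continuousOn.integrableOn_Icc
  · filter_upwards [ae_restrict_mem measurableSet_Icc] with x hx
    simpa using hx.2




lemma exists_frame (u v : E3) (hD : 0 < ‖u‖^2 * ‖v‖^2 - ⟪u, v⟫^2) :
    ∃ f1 f2 : E3, ⟪f1, f1⟫ = 1 ∧ ⟪f1, f2⟫ = 0 ∧ ⟪f2, f2⟫ = 1 ∧ u = ‖u‖ • f1 ∧
      v = (⟪u, v⟫ / ‖u‖) • f1 + (Real.sqrt (‖u‖^2 * ‖v‖^2 - ⟪u, v⟫^2) / ‖u‖) • f2 := by
  set D : ℝ := ‖u‖^2 * ‖v‖^2 - ⟪u, v⟫^2 with hDdef
  have hu : u ≠ 0 := by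
    rintro rfl
    simp [hDdef] at hD
  have hun : ‖u‖ ≠ 0 := norm_ne_zero_iff.mpr hu
  set s : ℝ := Real.sqrt D with hs
  have hspos : 0 < s := Real.sqrt_pos.mpr hD
  have hs2 : s ^ 2 = D := Real.sq_sqrt hD.le
  obtain ⟨f1, hf1⟩ : ∃ f1 : E3, f1 = (‖u‖)⁻¹ • u := ⟨_, rfl⟩
  obtain ⟨c, hc⟩ : ∃ c : ℝ, c = ⟪u, v⟫ / ‖u‖ := ⟨_, rfl⟩
  obtain ⟨f2, hf2⟩ : ∃ f2 : E3, f2 = (‖u‖ / s) • (v - c • f1) := ⟨_, rfl⟩
  have huu : ⟪u, u⟫ = ‖u‖^2 := real_inner_self_eq_norm_sq u
  have hvv : ⟪v, v⟫ = ‖v‖^2 := real_inner_self_eq_norm_sq v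
  have h11 : ⟪f1, f1⟫ = 1 := by
    rw [hf1, real_inner_smul_left, real_inner_smul_right, huu]
    field_simp
  have h1v : ⟪f1, v⟫ = c := by
    rw [hf1, real_inner_smul_left, hc]; field_simp
  have hv1 : ⟪v, f1⟫ = c := by rw [real_inner_comm, h1v]
  have h12 : ⟪f1, f2⟫ = 0 := by
    rw [hf2, real_inner_smul_right, inner_sub_right, h1v, real_inner_smul_right, h11]
    ring
  have h22 : ⟪f2, f2⟫ = 1 := by
    have e1 : ⟪v - c • f1, v - c • f1⟫ = ‖v‖^2 - c^2 := by
      rw [inner_sub_left, inner_sub_right, inner_sub_right, real_inner_smul_left,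
        real_inner_smul_left, real_inner_smul_right, real_inner_smul_right, h1v, hv1, h11, hvv]
      ring
    rw [hf2, real_inner_smul_left, real_inner_smul_right, e1]
    have : c ^ 2 * ‖u‖^2 = ⟪u, v⟫^2 := by rw [hc]; field_simp
    field_simp
    rw [hs2, hDdef]
    linear_combination (-1:ℝ) * this
  refine ⟨f1, f2, h11, h12, h22, ?_, ?_⟩
  · rw [hf1, smul_smul, mul_inv_cancel₀ hun, one_smul]
  · rw [← hc, hf2, smul_smul]
    have : s / ‖u‖ * (‖u‖ / s) = 1 := by field_simp
    rw [this]; module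

/-- Area of the triangle `w, w + u, w + v` in three-space. -/
lemma area_triangle (w u v : E3) (hD : 0 < ‖u‖^2 * ‖v‖^2 - ⟪u, v⟫^2) :
    μHE[2] ((fun x : E2 => w + x 0 • u + x 1 • v) '' T0) =
      ENNReal.ofReal (Real.sqrt (‖u‖^2 * ‖v‖^2 - ⟪u, v⟫^2) / 2) := by
  have hu : u ≠ 0 := by
    rintro rfl
    simp at hD
  have hun : ‖u‖ ≠ 0 := norm_ne_zero_iff.mpr hu
  obtain ⟨f1, f2, h11, h12, h22, hu1, hv1⟩ := exists_frame u v hD
  obtain ⟨s, hs⟩ : ∃ s : ℝ, s = Real.sqrt (‖u‖^2 * ‖v‖^2 - ⟪u, v⟫^2) := ⟨_, rfl⟩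
  obtain ⟨c, hc⟩ : ∃ c : ℝ, c = ⟪u, v⟫ / ‖u‖ := ⟨_, rfl⟩
  rw [← hs, ← hc] at hv1
  rw [← hs]
  have hspos : 0 < s := by rw [hs]; exact Real.sqrt_pos.mpr hD
  have h21 : ⟪f2, f1⟫ = 0 := by rw [real_inner_comm, h12]
  -- isometry
  let ι : E2 → E3 := fun y => w + (y 0 • f1 + y 1 • f2)
  have hι : Isometry ι := by
    apply Isometry.of_dist_eq
    intro x y
    rw [dist_eq_norm, EuclideanSpace.dist_eq, Fin.sum_univ_two]
    have : ι x - ι y = (x 0 - y 0) • f1 + (x 1 - y 1) • f2 := by
      simp only [ι]; module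
    rw [this, ← Real.sqrt_sq (norm_nonneg _), ← real_inner_self_eq_norm_sq]
    congr 1
    rw [inner_add_left, inner_add_right, inner_add_right]
    simp only [real_inner_smul_left, real_inner_smul_right, h11, h12, h21, h22]
    rw [Real.dist_eq, Real.dist_eq, sq_abs, sq_abs]
    ring
  let M : Matrix (Fin 2) (Fin 2) ℝ := !![‖u‖, c; 0, s / ‖u‖]
  let A : E2 →ₗ[ℝ] E2 := Matrix.toEuclideanLin M
  have hdet : LinearMap.det A = s := by
    have : LinearMap.det A = M.det := by
      have h := LinearMap.det_toLin (PiLp.basisFun 2 ℝ (Fin 2)) M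
      rw [← Matrix.toLpLin_eq_toLin] at h
      exact h
    rw [this]
    simp only [M, Matrix.det_fin_two_of]
    field_simp
    ring
  have hcomp : (fun x : E2 => w + x 0 • u + x 1 • v) = ι ∘ A := by
    funext x
    have hA0 : (A x) 0 = ‖u‖ * x 0 + c * x 1 := by
      simp [A, M, Matrix.toEuclideanLin, Matrix.mulVec, dotProduct, Fin.sum_univ_two]
    have hA1 : (A x) 1 = s / ‖u‖ * x 1 := by
      simp [A, M, Matrix.toEuclideanLin, Matrix.mulVec, dotProduct, Fin.sum_univ_two]
    simp only [Function.comp, ι, hA0, hA1]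
    conv_lhs => rw [hv1]
    nth_rewrite 1 [hu1]
    module
  rw [hcomp, Set.image_comp, hι.euclideanHausdorffMeasure_image,
    EuclideanSpace.euclideanHausdorffMeasure_eq_volume, addHaar_image_linearMap, hdet, volume_T0,
    abs_of_pos hspos, ← ENNReal.ofReal_mul hspos.le]
  congr 1
  ring


/-! ## Planar kites -/

lemma muHE_one_eq {X : Type*} [EMetricSpace X] [MeasurableSpace X] [BorelSpace X] :
    (μHE[1] : Measure X) = μH[1] := by
  have h1 : (μHE[1] : Measure ℝ) = volume := by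
    have := InnerProductSpace.euclideanHausdorffMeasure_eq_volume (V := ℝ)
    simpa using this
  have h2 : addHaarScalarFactor (volume : Measure (EuclideanSpace ℝ (Fin 1))) μH[(1:ℕ)] = 1 := by
    have h3 := congrArg (fun μ : Measure ℝ => μ (Set.Icc 0 1)) h1
    simp only [euclideanHausdorffMeasure_def, Measure.smul_apply] at h3
    have h4 : (μH[((1:ℕ):ℝ)] : Measure ℝ) = volume := by
      rw [Nat.cast_one]; exact hausdorffMeasure_real
    rw [h4] at h3
    rw [Real.volume_Icc] at h3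
    simp only [sub_zero, ENNReal.ofReal_one] at h3
    rw [ENNReal.smul_def, smul_eq_mul, mul_one] at h3
    exact_mod_cast h3
  rw [euclideanHausdorffMeasure_def, h2, one_smul, Nat.cast_one]

/-- planar kite -/
noncomputable def gP (p q : ℝ) (y : E2) : ℝ := max (y 0 / p) (-(y 0) / q) + |y 1|

def kite (p q : ℝ) : Set E2 := {y | gP p q y ≤ 1}

lemma mem_kite {p q : ℝ} {y : E2} : y ∈ kite p q ↔ gP p q y ≤ 1 := Iff.rfl

lemma continuous_gP (p q : ℝ) : Continuous (gP p q) := by
  unfold gP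
  fun_prop

lemma gP_smul (p q : ℝ) {c : ℝ} (hc : 0 ≤ c) (y : E2) : gP p q (c • y) = c * gP p q y := by
  unfold gP
  simp only [PiLp.smul_apply, smul_eq_mul]
  rw [abs_mul, abs_of_nonneg hc, mul_add, mul_max_of_nonneg _ _ hc]
  congr 2 <;> ring

lemma interior_kite (p q : ℝ) : interior (kite p q) = {y | gP p q y < 1} := by
  apply Set.Subset.antisymm
  · intro y hy
    have hy1 : gP p q y ≤ 1 := mem_kite.mp (interior_subset hy)
    rcases hy1.lt_or_eq with h | h
    · exact h
    · exfalso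
      have hc : Continuous (fun t : ℝ => (1 + t) • y) := by fun_prop
      have h0 : (fun t : ℝ => (1 + t) • y) 0 ∈ interior (kite p q) := by simpa using hy
      have hev := hc.continuousAt.eventually (isOpen_interior.mem_nhds h0)
      have hev2 := (hev.filter_mono (nhdsWithin_le_nhds (s := Set.Ioi 0)))
      have hex := (hev2.and self_mem_nhdsWithin).exists
      obtain ⟨t, ht, htpos⟩ := hex
      have htpos' : 0 < t := htpos
      have h2 : gP p q ((1 + t) • y) ≤ 1 := mem_kite.mp (interior_subset ht)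
      rw [gP_smul p q (by linarith)] at h2
      rw [h] at h2
      linarith
  · apply interior_maximal
    · intro y hy
      have : gP p q y < 1 := hy
      exact mem_kite.mpr this.le
    · exact isOpen_lt (continuous_gP p q) continuous_const

lemma isClosed_kite (p q : ℝ) : IsClosed (kite p q) :=
  isClosed_le (continuous_gP p q) continuous_const

lemma frontier_kite (p q : ℝ) : frontier (kite p q) = {y | gP p q y = 1} := by
  rw [(isClosed_kite p q).frontier_eq, interior_kite]
  ext y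
  simp only [kite, Set.mem_sdiff, Set.mem_ofPred_eq, not_lt]
  exact ⟨fun ⟨h1, h2⟩ => le_antisymm h1 h2, fun h => ⟨h.le, h.ge⟩⟩

/-- The point with coordinates `(x, y)`. -/
def pt (x y : ℝ) : E2 := WithLp.toLp 2 ![x, y]

@[simp] lemma pt_zero (x y : ℝ) : (pt x y) 0 = x := rfl
@[simp] lemma pt_one (x y : ℝ) : (pt x y) 1 = y := rfl

/-- segment joining `(x,0)` and `(0,y)` -/
lemma mem_seg_iff {x y : ℝ} (hx : x ≠ 0) (hy : y ≠ 0) (z : E2) :
    z ∈ segment ℝ (pt x 0) (pt 0 y) ↔ 0 ≤ z 0 / x ∧ 0 ≤ z 1 / y ∧ z 0 / x + z 1 / y = 1 := by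
  constructor
  · rintro ⟨a, b, ha, hb, hab, rfl⟩
    simp only [PiLp.add_apply, PiLp.smul_apply, pt_zero, pt_one, smul_eq_mul, mul_zero, add_zero, zero_add]
    rw [mul_div_cancel_right₀ _ hx, mul_div_cancel_right₀ _ hy]
    exact ⟨ha, hb, hab⟩
  · rintro ⟨ha, hb, hab⟩
    refine ⟨z 0 / x, z 1 / y, ha, hb, hab, ?_⟩
    ext i
    fin_cases i
    · simp [div_mul_cancel₀ _ hx]
    · simp [div_mul_cancel₀ _ hy]

lemma measure_seg (x y : ℝ) :
    μHE[1] (segment ℝ (pt x 0) (pt 0 y)) = ENNReal.ofReal (Real.sqrt (x^2 + y^2)) := by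
  rw [muHE_one_eq, hausdorffMeasure_segment, edist_dist, EuclideanSpace.dist_eq, Fin.sum_univ_two]
  congr 2
  simp [Real.dist_eq, sq_abs]


lemma frontier_kite_eq {p q : ℝ} (hp : 0 < p) (hq : 0 < q) :
    frontier (kite p q) =
      (segment ℝ (pt p 0) (pt 0 1) ∪ segment ℝ (pt (-q) 0) (pt 0 (-1))) ∪
      (segment ℝ (pt p 0) (pt 0 (-1)) ∪ segment ℝ (pt (-q) 0) (pt 0 1)) := by
  rw [frontier_kite]
  ext z
  simp only [Set.mem_union, Set.mem_ofPred_eq]
  rw [mem_seg_iff hp.ne' one_ne_zero, mem_seg_iff (neg_ne_zero.mpr hq.ne') (neg_ne_zero.mpr one_ne_zero),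
    mem_seg_iff hp.ne' (neg_ne_zero.mpr one_ne_zero), mem_seg_iff (neg_ne_zero.mpr hq.ne') one_ne_zero]
  have e1 : z 0 / -q = -(z 0) / q := by rw [div_neg, neg_div]
  have e2 : z 1 / -1 = - (z 1) := by rw [div_neg, div_one]
  have e3 : z 1 / 1 = z 1 := div_one _
  rw [e1, e2, e3]
  unfold gP
  constructor
  · intro h
    rcases le_total 0 (z 0) with h0 | h0
    · have h0p : 0 ≤ z 0 / p := div_nonneg h0 hp.le
      have h0q : -(z 0) / q ≤ 0 := div_nonpos_of_nonpos_of_nonneg (by linarith) hq.le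
      rw [max_eq_left (by linarith)] at h
      rcases le_total 0 (z 1) with h1 | h1
      · rw [abs_of_nonneg h1] at h
        exact Or.inl (Or.inl ⟨h0p, h1, h⟩)
      · rw [abs_of_nonpos h1] at h
        exact Or.inr (Or.inl ⟨h0p, by linarith, h⟩)
    · have h0p : z 0 / p ≤ 0 := div_nonpos_of_nonpos_of_nonneg h0 hp.le
      have h0q : 0 ≤ -(z 0) / q := div_nonneg (by linarith) hq.le
      rw [max_eq_right (by linarith)] at h
      rcases le_total 0 (z 1) with h1 | h1
      · rw [abs_of_nonneg h1] at h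
        exact Or.inr (Or.inr ⟨h0q, h1, h⟩)
      · rw [abs_of_nonpos h1] at h
        exact Or.inl (Or.inr ⟨h0q, by linarith, h⟩)
  · have key1 : 0 ≤ z 0 / p → -(z 0) / q ≤ z 0 / p := by
      intro h
      have h0 : 0 ≤ z 0 := by
        by_contra hc
        push Not at hc
        have := div_neg_of_neg_of_pos hc hp
        linarith
      have h0q : -(z 0) / q ≤ 0 := div_nonpos_of_nonpos_of_nonneg (by linarith) hq.le
      linarith
    have key2 : 0 ≤ -(z 0) / q → z 0 / p ≤ -(z 0) / q := by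
      intro h
      have h0 : z 0 ≤ 0 := by
        by_contra hc
        push Not at hc
        have := div_neg_of_neg_of_pos (neg_neg_of_pos hc) hq
        linarith
      have h0q : z 0 / p ≤ 0 := div_nonpos_of_nonpos_of_nonneg h0 hp.le
      linarith
    rintro ((⟨h0, h1, h⟩ | ⟨h0, h1, h⟩) | (⟨h0, h1, h⟩ | ⟨h0, h1, h⟩))
    · rw [max_eq_left (key1 h0), abs_of_nonneg h1, h]
    · rw [max_eq_right (key2 h0), abs_of_nonpos (by linarith), h]
    · rw [max_eq_left (key1 h0), abs_of_nonpos (by linarith), h]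
    · rw [max_eq_right (key2 h0), abs_of_nonneg h1, h]

lemma muHE_one_singleton (z : E2) : (μHE[1] : Measure E2) {z} = 0 := by
  rw [muHE_one_eq]
  have : NullSingletonClass (μH[1] : Measure E2) := Measure.nullSingletonClass_hausdorff _ one_pos
  exact measure_singleton z

lemma isClosed_seg (x y : E2) : IsClosed (segment ℝ x y) := by
  rw [segment_eq_image_lineMap]
  exact (isCompact_Icc.image (AffineMap.lineMap_continuous)).isClosed

lemma measurableSet_seg (x y : E2) : MeasurableSet (segment ℝ x y) := (isClosed_seg x y).measurableSet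


lemma sign_aux {p t : ℝ} (hp : 0 < p) (h : 0 ≤ t / p) : 0 ≤ t := by
  by_contra hc
  push Not at hc
  have := div_neg_of_neg_of_pos hc hp
  linarith

lemma sign_aux' {q t : ℝ} (hq : 0 < q) (h : 0 ≤ t / -q) : t ≤ 0 := by
  by_contra hc
  push Not at hc
  have := div_neg_of_pos_of_neg hc (neg_neg_of_pos hq)
  linarith

lemma measure_frontier_kite {p q : ℝ} (hp : 0 < p) (hq : 0 < q) :
    μHE[1] (frontier (kite p q)) = ENNReal.ofReal (2 * (Real.sqrt (1 + p^2) + Real.sqrt (1 + q^2))) := by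
  rw [frontier_kite_eq hp hq]
  have hq' : -q ≠ 0 := neg_ne_zero.mpr hq.ne'
  have hm1 : (-1 : ℝ) ≠ 0 := by norm_num
  have d1 : (segment ℝ (pt p 0) (pt 0 1)) ∩ (segment ℝ (pt (-q) 0) (pt 0 (-1))) = ∅ := by
    rw [Set.eq_empty_iff_forall_notMem]
    intro z hz
    rw [Set.mem_inter_iff, mem_seg_iff hp.ne' one_ne_zero, mem_seg_iff hq' hm1] at hz
    obtain ⟨⟨a1, a2, a3⟩, ⟨b1, b2, b3⟩⟩ := hz
    have z00 : z 0 = 0 := le_antisymm (sign_aux' hq b1) (sign_aux hp a1)
    rw [z00] at a3 b3
    simp only [zero_div, zero_add, div_one, div_neg] at a3 b3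
    linarith
  have d2 : (segment ℝ (pt p 0) (pt 0 (-1))) ∩ (segment ℝ (pt (-q) 0) (pt 0 1)) = ∅ := by
    rw [Set.eq_empty_iff_forall_notMem]
    intro z hz
    rw [Set.mem_inter_iff, mem_seg_iff hp.ne' hm1, mem_seg_iff hq' one_ne_zero] at hz
    obtain ⟨⟨a1, a2, a3⟩, ⟨b1, b2, b3⟩⟩ := hz
    have z00 : z 0 = 0 := le_antisymm (sign_aux' hq b1) (sign_aux hp a1)
    rw [z00] at a3 b3
    simp only [zero_div, zero_add, div_one, div_neg] at a3 b3
    linarith
  have d3 : ((segment ℝ (pt p 0) (pt 0 1)) ∪ (segment ℝ (pt (-q) 0) (pt 0 (-1)))) ∩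
      ((segment ℝ (pt p 0) (pt 0 (-1))) ∪ (segment ℝ (pt (-q) 0) (pt 0 1))) ⊆
      {pt p 0} ∪ {pt (-q) 0} ∪ {pt 0 1} ∪ {pt 0 (-1)} := by
    intro z hz
    rw [Set.mem_inter_iff, Set.mem_union, Set.mem_union, mem_seg_iff hp.ne' hm1, mem_seg_iff hq' one_ne_zero,
      mem_seg_iff hp.ne' one_ne_zero, mem_seg_iff hq' hm1] at hz
    simp only [Set.mem_union, Set.mem_singleton_iff]
    obtain ⟨(⟨a1, a2, a3⟩ | ⟨a1, a2, a3⟩), (⟨b1, b2, b3⟩ | ⟨b1, b2, b3⟩)⟩ := hz
    · -- z 1 = 0, z 0 = p
      have hz1 : z 1 = 0 := le_antisymm (sign_aux' one_pos b2) (sign_aux one_pos a2)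
      rw [hz1, zero_div, add_zero, div_eq_one_iff_eq hp.ne'] at a3
      left; left; left
      ext i; fin_cases i
      · simpa using a3
      · simpa using hz1
    · have hz0 : z 0 = 0 := le_antisymm (sign_aux' hq b1) (sign_aux hp a1)
      rw [hz0, zero_div, zero_add, div_one] at a3
      left; right
      ext i; fin_cases i
      · simpa using hz0
      · simpa using a3
    · have hz0 : z 0 = 0 := le_antisymm (sign_aux' hq a1) (sign_aux hp b1)
      rw [hz0, zero_div, zero_add] at a3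
      have : z 1 = -1 := by
        rw [div_neg, div_one] at a3; linarith
      right
      ext i; fin_cases i
      · simpa using hz0
      · simpa using this
    · have hz1 : z 1 = 0 := le_antisymm (sign_aux' one_pos a2) (sign_aux one_pos b2)
      rw [hz1, zero_div, add_zero, div_eq_one_iff_eq hq'] at a3
      left; left; right
      ext i; fin_cases i
      · simpa using a3
      · simpa using hz1
  have hnull : μHE[1] (({pt p 0} : Set E2) ∪ {pt (-q) 0} ∪ {pt 0 1} ∪ {pt 0 (-1)}) = 0 := by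
    rw [measure_union_null_iff, measure_union_null_iff, measure_union_null_iff]
    exact ⟨⟨⟨muHE_one_singleton _, muHE_one_singleton _⟩, muHE_one_singleton _⟩, muHE_one_singleton _⟩
  have m1 := measurableSet_seg (pt p 0) (pt 0 1)
  have m2 := measurableSet_seg (pt (-q) 0) (pt 0 (-1))
  have m3 := measurableSet_seg (pt p 0) (pt 0 (-1))
  have m4 := measurableSet_seg (pt (-q) 0) (pt 0 1)
  rw [measure_union₀ (m3.union m4).nullMeasurableSet (measure_mono_null d3 hnull)]
  rw [measure_union (Set.disjoint_iff_inter_eq_empty.mpr d1) m2,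
    measure_union (Set.disjoint_iff_inter_eq_empty.mpr d2) m4]
  rw [measure_seg, measure_seg, measure_seg, measure_seg]
  rw [← ENNReal.ofReal_add (by positivity) (by positivity), ← ENNReal.ofReal_add (by positivity) (by positivity),
    ← ENNReal.ofReal_add (by positivity) (by positivity)]
  congr 1
  have e1 : p^2 + 1^2 = 1 + p^2 := by ring
  have e2 : (-q)^2 + (-1)^2 = 1 + q^2 := by ring
  have e3 : p^2 + (-1)^2 = 1 + p^2 := by ring
  have e4 : (-q)^2 + 1^2 = 1 + q^2 := by ring
  rw [e1, e2, e3, e4]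
  ring


lemma V1_kite {p q : ℝ} (hp : 0 < p) (hq : 0 < q) :
    V1 (kite p q) = Real.sqrt (1 + p^2) + Real.sqrt (1 + q^2) := by
  have hne : (interior (kite p q)).Nonempty := by
    rw [interior_kite]
    refine ⟨0, ?_⟩
    simp [gP]
  rw [V1, if_pos hne, measure_frontier_kite hp hq, ENNReal.toReal_ofReal (by positivity)]
  ring

/-! ## The double pyramid -/

/-- gauge of the double pyramid -/
noncomputable def gB (a b : ℝ) (x : E3) : ℝ := max (x 0 / a) (-(x 0) / b) + |x 1| + |x 2|

lemma continuous_gB (a b : ℝ) : Continuous (gB a b) := by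
  unfold gB
  fun_prop

/-- the unit ball of the gauge -/
def body (a b : ℝ) : Set E3 := {x | gB a b x ≤ 1}

lemma mem_body {a b : ℝ} {x : E3} : x ∈ body a b ↔ gB a b x ≤ 1 := Iff.rfl

lemma isClosed_body (a b : ℝ) : IsClosed (body a b) :=
  isClosed_le (continuous_gB a b) continuous_const

lemma gB_smul (a b : ℝ) {c : ℝ} (hc : 0 ≤ c) (x : E3) : gB a b (c • x) = c * gB a b x := by
  unfold gB
  simp only [PiLp.smul_apply, smul_eq_mul]
  rw [abs_mul, abs_mul, abs_of_nonneg hc, mul_add, mul_add, mul_max_of_nonneg _ _ hc]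
  congr 3 <;> ring

lemma gB_add_le (a b : ℝ) (x y : E3) : gB a b (x + y) ≤ gB a b x + gB a b y := by
  unfold gB
  simp only [PiLp.add_apply]
  have h1 : max ((x 0 + y 0) / a) (-(x 0 + y 0) / b) ≤
      max (x 0 / a) (-(x 0) / b) + max (y 0 / a) (-(y 0) / b) := by
    apply max_le
    · rw [add_div]
      exact add_le_add (le_max_left _ _) (le_max_left _ _)
    · rw [neg_add, add_div]
      exact add_le_add (le_max_right _ _) (le_max_right _ _)
  have h2 := abs_add_le (x 1) (y 1)
  have h3 := abs_add_le (x 2) (y 2)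
  linarith

lemma convex_body (a b : ℝ) : Convex ℝ (body a b) := by
  intro x hx y hy s t hs ht hst
  rw [mem_body] at *
  calc gB a b (s • x + t • y) ≤ gB a b (s • x) + gB a b (t • y) := gB_add_le _ _ _ _
    _ = s * gB a b x + t * gB a b y := by rw [gB_smul a b hs, gB_smul a b ht]
    _ ≤ s * 1 + t * 1 := by gcongr
    _ = 1 := by linarith

/-- The vertex triangle -/
def tri (t s r : ℝ) : Set E3 :=
  (fun y : E2 => EuclideanSpace.single 0 t + y 0 • (EuclideanSpace.single 1 s - EuclideanSpace.single 0 t)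
    + y 1 • (EuclideanSpace.single 2 r - EuclideanSpace.single 0 t) : E2 → E3) '' T0

lemma mem_tri {t s r : ℝ} (ht : t ≠ 0) (hs : s ≠ 0) (hr : r ≠ 0) (x : E3) (h0 : 0 ≤ x 0 / t)
    (h1 : 0 ≤ x 1 / s) (h2 : 0 ≤ x 2 / r) (h : x 0 / t + x 1 / s + x 2 / r = 1) : x ∈ tri t s r := by
  refine ⟨pt (x 1 / s) (x 2 / r), ⟨by simpa using h1, by simpa using h2, by simp; linarith⟩, ?_⟩
  have e0 : x 0 = t * (1 - x 1 / s - x 2 / r) := by
    have h3 : x 0 = t * (x 0 / t) := by field_simp
    have h4 : x 0 / t = 1 - x 1 / s - x 2 / r := by linarith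
    rw [← h4]; exact h3
  ext i
  fin_cases i
  · simp [e0]; ring
  · simp; field_simp
  · simp; field_simp

lemma measure_tri (t s r : ℝ) (hs : s ^ 2 = 1) (hr : r ^ 2 = 1) :
    μHE[2] (tri t s r) = ENNReal.ofReal (Real.sqrt (1 + 2 * t ^ 2) / 2) := by
  have n1 : ‖(EuclideanSpace.single 1 s - EuclideanSpace.single 0 t : E3)‖ ^ 2 = 1 + t ^ 2 := by
    rw [EuclideanSpace.real_norm_sq_eq, Fin.sum_univ_three]
    simp; linarith
  have n2 : ‖(EuclideanSpace.single 2 r - EuclideanSpace.single 0 t : E3)‖ ^ 2 = 1 + t ^ 2 := by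
    rw [EuclideanSpace.real_norm_sq_eq, Fin.sum_univ_three]
    simp; linarith
  have n3 : ⟪(EuclideanSpace.single 1 s - EuclideanSpace.single 0 t : E3),
      (EuclideanSpace.single 2 r - EuclideanSpace.single 0 t : E3)⟫ = t ^ 2 := by
    rw [PiLp.inner_apply, Fin.sum_univ_three]
    simp
  have hD : ‖(EuclideanSpace.single 1 s - EuclideanSpace.single 0 t : E3)‖ ^ 2 *
      ‖(EuclideanSpace.single 2 r - EuclideanSpace.single 0 t : E3)‖ ^ 2 -
      ⟪(EuclideanSpace.single 1 s - EuclideanSpace.single 0 t : E3),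
      (EuclideanSpace.single 2 r - EuclideanSpace.single 0 t : E3)⟫ ^ 2 = 1 + 2 * t ^ 2 := by
    rw [n1, n2, n3]; ring
  have := area_triangle (EuclideanSpace.single 0 t)
    (EuclideanSpace.single 1 s - EuclideanSpace.single 0 t : E3)
    (EuclideanSpace.single 2 r - EuclideanSpace.single 0 t : E3) (by rw [hD]; positivity)
  rw [hD] at this
  exact this

lemma mem_tris {a b : ℝ} (ha : 0 < a) (hb : 0 < b) {x : E3} (hx2 : gB a b x = 1) :
    x ∈
      (((tri a 1 1 ∪ tri a 1 (-1)) ∪ (tri a (-1) 1 ∪ tri a (-1) (-1))) ∪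
      ((tri (-b) 1 1 ∪ tri (-b) 1 (-1)) ∪ (tri (-b) (-1) 1 ∪ tri (-b) (-1) (-1)))) := by
  unfold gB at hx2
  have hb' : -b ≠ 0 := neg_ne_zero.mpr hb.ne'
  have hm1 : (-1 : ℝ) ≠ 0 := by norm_num
  rcases le_total 0 (x 0) with h0 | h0
  · left
    have h0p : 0 ≤ x 0 / a := div_nonneg h0 ha.le
    have h0q : -(x 0) / b ≤ 0 := div_nonpos_of_nonpos_of_nonneg (by linarith) hb.le
    rw [max_eq_left (by linarith)] at hx2
    rcases le_total 0 (x 1) with h1 | h1 <;> rcases le_total 0 (x 2) with h2 | h2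
    · left; left
      rw [abs_of_nonneg h1, abs_of_nonneg h2] at hx2
      exact mem_tri ha.ne' one_ne_zero one_ne_zero x h0p (by simpa using h1) (by simpa using h2)
        (by rw [div_one, div_one]; exact hx2)
    · left; right
      rw [abs_of_nonneg h1, abs_of_nonpos h2] at hx2
      exact mem_tri ha.ne' one_ne_zero hm1 x h0p (by simpa using h1)
        (by rw [div_neg, div_one]; linarith)
        (by rw [div_one, div_neg, div_one]; exact hx2)
    · right; left
      rw [abs_of_nonpos h1, abs_of_nonneg h2] at hx2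
      exact mem_tri ha.ne' hm1 one_ne_zero x h0p (by rw [div_neg, div_one]; linarith)
        (by simpa using h2) (by rw [div_one, div_neg, div_one]; exact hx2)
    · right; right
      rw [abs_of_nonpos h1, abs_of_nonpos h2] at hx2
      exact mem_tri ha.ne' hm1 hm1 x h0p (by rw [div_neg, div_one]; linarith)
        (by rw [div_neg, div_one]; linarith)
        (by rw [div_neg, div_one, div_neg, div_one]; exact hx2)
  · right
    have h0p : x 0 / a ≤ 0 := div_nonpos_of_nonpos_of_nonneg h0 ha.le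
    have h0q : 0 ≤ -(x 0) / b := div_nonneg (by linarith) hb.le
    have h0q' : x 0 / -b = -(x 0) / b := by rw [div_neg, neg_div]
    rw [max_eq_right (by linarith), ← h0q'] at hx2
    rw [← h0q'] at h0q
    rcases le_total 0 (x 1) with h1 | h1 <;> rcases le_total 0 (x 2) with h2 | h2
    · left; left
      rw [abs_of_nonneg h1, abs_of_nonneg h2] at hx2
      exact mem_tri hb' one_ne_zero one_ne_zero x h0q (by simpa using h1) (by simpa using h2)
        (by rw [div_one, div_one]; exact hx2)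
    · left; right
      rw [abs_of_nonneg h1, abs_of_nonpos h2] at hx2
      exact mem_tri hb' one_ne_zero hm1 x h0q (by simpa using h1)
        (by rw [div_neg, div_one]; linarith)
        (by rw [div_one, div_neg (x 2), div_one]; exact hx2)
    · right; left
      rw [abs_of_nonpos h1, abs_of_nonneg h2] at hx2
      exact mem_tri hb' hm1 one_ne_zero x h0q (by rw [div_neg, div_one]; linarith)
        (by simpa using h2) (by rw [div_one, div_neg (x 1), div_one]; exact hx2)
    · right; right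
      rw [abs_of_nonpos h1, abs_of_nonpos h2] at hx2
      exact mem_tri hb' hm1 hm1 x h0q (by rw [div_neg, div_one]; linarith)
        (by rw [div_neg, div_one]; linarith)
        (by rw [div_neg (x 1), div_one, div_neg (x 2), div_one]; exact hx2)

lemma interior_body_of_lt {a b : ℝ} {x : E3} (h : gB a b x < 1) : x ∈ interior (body a b) := by
  have hsub : {y | gB a b y < 1} ⊆ body a b := by
    intro y hy
    have : gB a b y < 1 := hy
    exact mem_body.mpr this.le
  exact interior_maximal hsub (isOpen_lt (continuous_gB a b) continuous_const) h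

lemma frontier_body_subset {a b : ℝ} (ha : 0 < a) (hb : 0 < b) :
    frontier (body a b) ⊆
      (((tri a 1 1 ∪ tri a 1 (-1)) ∪ (tri a (-1) 1 ∪ tri a (-1) (-1))) ∪
      ((tri (-b) 1 1 ∪ tri (-b) 1 (-1)) ∪ (tri (-b) (-1) 1 ∪ tri (-b) (-1) (-1)))) := by
  intro x hx
  rw [(isClosed_body a b).frontier_eq] at hx
  have hx1 : gB a b x ≤ 1 := mem_body.mp hx.1
  have hx2 : gB a b x = 1 := by
    rcases hx1.lt_or_eq with h | h
    · exact absurd (interior_body_of_lt h) hx.2
    · exact h
  exact mem_tris ha hb hx2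

lemma V2_body_le {a b : ℝ} (ha : 0 < a) (hb : 0 < b) :
    V2 (body a b) ≤ Real.sqrt (1 + 2 * a ^ 2) + Real.sqrt (1 + 2 * b ^ 2) := by
  set A := Real.sqrt (1 + 2 * a ^ 2) with hA
  set B := Real.sqrt (1 + 2 * b ^ 2) with hB
  have hA0 : 0 ≤ A := Real.sqrt_nonneg _
  have hB0 : 0 ≤ B := Real.sqrt_nonneg _
  have mA : ∀ s r : ℝ, s ^ 2 = 1 → r ^ 2 = 1 → μHE[2] (tri a s r) = ENNReal.ofReal (A / 2) :=
    fun s r hs hr => measure_tri a s r hs hr
  have mB : ∀ s r : ℝ, s ^ 2 = 1 → r ^ 2 = 1 → μHE[2] (tri (-b) s r) = ENNReal.ofReal (B / 2) := by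
    intro s r hs hr
    rw [measure_tri (-b) s r hs hr, neg_sq]
  have h : μHE[2] (frontier (body a b)) ≤ ENNReal.ofReal (2 * (A + B)) := by
    refine (measure_mono (frontier_body_subset ha hb)).trans ?_
    refine (measure_union_le _ _).trans ?_
    have e : ENNReal.ofReal (2 * (A + B)) =
        ((ENNReal.ofReal (A / 2) + ENNReal.ofReal (A / 2)) +
          (ENNReal.ofReal (A / 2) + ENNReal.ofReal (A / 2))) +
        ((ENNReal.ofReal (B / 2) + ENNReal.ofReal (B / 2)) +
          (ENNReal.ofReal (B / 2) + ENNReal.ofReal (B / 2))) := by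
      rw [← ENNReal.ofReal_add (by positivity) (by positivity),
        ← ENNReal.ofReal_add (by positivity) (by positivity),
        ← ENNReal.ofReal_add (by positivity) (by positivity),
        ← ENNReal.ofReal_add (by positivity) (by positivity),
        ← ENNReal.ofReal_add (by positivity) (by positivity)]
      congr 1
      ring
    rw [e]
    refine add_le_add ?_ ?_
    · refine (measure_union_le _ _).trans (add_le_add ?_ ?_)
      · refine (measure_union_le _ _).trans (add_le_add ?_ ?_)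
        · exact (mA _ _ (by norm_num) (by norm_num)).le
        · exact (mA _ _ (by norm_num) (by norm_num)).le
      · refine (measure_union_le _ _).trans (add_le_add ?_ ?_)
        · exact (mA _ _ (by norm_num) (by norm_num)).le
        · exact (mA _ _ (by norm_num) (by norm_num)).le
    · refine (measure_union_le _ _).trans (add_le_add ?_ ?_)
      · refine (measure_union_le _ _).trans (add_le_add ?_ ?_)
        · exact (mB _ _ (by norm_num) (by norm_num)).le
        · exact (mB _ _ (by norm_num) (by norm_num)).le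
      · refine (measure_union_le _ _).trans (add_le_add ?_ ?_)
        · exact (mB _ _ (by norm_num) (by norm_num)).le
        · exact (mB _ _ (by norm_num) (by norm_num)).le
  have h2 : (μHE[2] (frontier (body a b))).toReal ≤ 2 * (A + B) :=
    ENNReal.toReal_le_of_le_ofReal (by positivity) h
  unfold V2
  linarith

lemma section_zero {a b : ℝ} : coordSection (body a b) 0 = kite 1 1 := by
  ext y
  rw [mem_kite]
  change gB a b (incl 0 y) ≤ 1 ↔ _
  have e0 : (incl 0 y) 0 = 0 := rfl
  have e1 : (incl 0 y) 1 = y 0 := rfl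
  have e2 : (incl 0 y) 2 = y 1 := rfl
  unfold gB gP
  rw [e0, e1, e2]
  have : max (y 0 / 1) (-(y 0) / 1) = |y 0| := by rw [div_one, div_one]; rfl
  rw [this]
  simp

lemma section_one {a b : ℝ} : coordSection (body a b) 1 = kite a b := by
  ext y
  rw [mem_kite]
  change gB a b (incl 1 y) ≤ 1 ↔ _
  have e0 : (incl 1 y) 0 = y 0 := rfl
  have e1 : (incl 1 y) 1 = 0 := rfl
  have e2 : (incl 1 y) 2 = y 1 := rfl
  unfold gB gP
  rw [e0, e1, e2]
  simp

lemma section_two {a b : ℝ} : coordSection (body a b) 2 = kite a b := by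
  ext y
  rw [mem_kite]
  change gB a b (incl 2 y) ≤ 1 ↔ _
  have e0 : (incl 2 y) 0 = y 0 := rfl
  have e1 : (incl 2 y) 1 = y 1 := rfl
  have e2 : (incl 2 y) 2 = 0 := rfl
  unfold gB gP
  rw [e0, e1, e2]
  simp

lemma heronRHS_body {a b : ℝ} (ha : 0 < a) (hb : 0 < b) :
    heronRHS (body a b) = 2 * (Real.sqrt (1 + a ^ 2) + Real.sqrt (1 + b ^ 2)) ^ 2 - 4 := by
  unfold heronRHS ell
  rw [Fin.sum_univ_three, Fin.sum_univ_three, section_zero, section_one, section_two,
    V1_kite one_pos one_pos, V1_kite ha hb]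
  have h2 : Real.sqrt (1 + 1 ^ 2) ^ 2 = 2 := by
    rw [Real.sq_sqrt (by norm_num)]; norm_num
  set c := Real.sqrt (1 + 1 ^ 2)
  set d := Real.sqrt (1 + a ^ 2) + Real.sqrt (1 + b ^ 2)
  have h3 : (c + c) ^ 2 = 8 := by linear_combination 4 * h2
  have h4 : (c + c) ^ 4 = 64 := by
    have : (c + c) ^ 4 = ((c + c) ^ 2) ^ 2 := by ring
    rw [this, h3]; norm_num
  rw [h3, h4]
  ring

lemma key_ineq {a b : ℝ} (ha : 0 < a) (hb : 0 < b) (hab : a ≠ b) :
    (Real.sqrt (1 + 2 * a ^ 2) + Real.sqrt (1 + 2 * b ^ 2)) ^ 2 <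
      2 * (Real.sqrt (1 + a ^ 2) + Real.sqrt (1 + b ^ 2)) ^ 2 - 4 := by
  obtain ⟨A, hA⟩ : ∃ A, A = Real.sqrt (1 + 2 * a ^ 2) := ⟨_, rfl⟩
  obtain ⟨B, hB⟩ : ∃ B, B = Real.sqrt (1 + 2 * b ^ 2) := ⟨_, rfl⟩
  obtain ⟨C, hC⟩ : ∃ C, C = Real.sqrt (1 + a ^ 2) := ⟨_, rfl⟩
  obtain ⟨D, hD⟩ : ∃ D, D = Real.sqrt (1 + b ^ 2) := ⟨_, rfl⟩
  have A2 : A ^ 2 = 1 + 2 * a ^ 2 := by rw [hA, Real.sq_sqrt (by positivity)]
  have B2 : B ^ 2 = 1 + 2 * b ^ 2 := by rw [hB, Real.sq_sqrt (by positivity)]
  have C2 : C ^ 2 = 1 + a ^ 2 := by rw [hC, Real.sq_sqrt (by positivity)]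
  have D2 : D ^ 2 = 1 + b ^ 2 := by rw [hD, Real.sq_sqrt (by positivity)]
  have hA0 : 0 ≤ A := by rw [hA]; exact Real.sqrt_nonneg _
  have hB0 : 0 ≤ B := by rw [hB]; exact Real.sqrt_nonneg _
  have hC0 : 0 ≤ C := by rw [hC]; exact Real.sqrt_nonneg _
  have hD0 : 0 ≤ D := by rw [hD]; exact Real.sqrt_nonneg _
  rw [← hA, ← hB, ← hC, ← hD]
  have hne : A ≠ B := by
    intro h
    have h2 : A ^ 2 = B ^ 2 := by rw [h]
    rw [A2, B2] at h2
    have h3 : a ^ 2 = b ^ 2 := by linarith
    exact hab ((pow_left_inj₀ ha.le hb.le two_ne_zero).mp h3)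
  have hlt : (A * B + 1) ^ 2 < (2 * (C * D)) ^ 2 := by
    have e : (2 * (C * D)) ^ 2 = (A ^ 2 + 1) * (B ^ 2 + 1) := by
      have : (2 * (C * D)) ^ 2 = 4 * C ^ 2 * D ^ 2 := by ring
      rw [this, C2, D2, A2, B2]; ring
    rw [e]
    have : 0 < (A - B) ^ 2 := by
      have : A - B ≠ 0 := sub_ne_zero.mpr hne
      positivity
    nlinarith
  have hlt2 : A * B + 1 < 2 * (C * D) := lt_of_pow_lt_pow_left₀ 2 (by positivity) hlt
  nlinarith

lemma mem_hull_of_tri {S : Set E3} (hS : Convex ℝ S) {t s r : ℝ}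
    (ht : EuclideanSpace.single 0 t ∈ S) (hs : EuclideanSpace.single 1 s ∈ S)
    (hr : EuclideanSpace.single 2 r ∈ S) {x : E3} (hx : x ∈ tri t s r) : x ∈ S := by
  obtain ⟨y, ⟨h0, h1, h2⟩, rfl⟩ := hx
  have := hS.sum_mem (t := Finset.univ) (w := ![1 - y 0 - y 1, y 0, y 1])
    (z := ![EuclideanSpace.single 0 t, EuclideanSpace.single 1 s, EuclideanSpace.single 2 r])
    (by
      intro i _
      fin_cases i
      · simp; linarith
      · simpa using h0
      · simpa using h1)
    (by
      rw [Fin.sum_univ_three]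
      simp only [Matrix.cons_val_zero, Matrix.cons_val_one, Matrix.cons_val]
      ring)
    (by
      intro i _
      fin_cases i
      · simpa using ht
      · simpa using hs
      · simpa using hr)
  rw [Fin.sum_univ_three] at this
  simp only [Matrix.cons_val_zero, Matrix.cons_val_one, Matrix.cons_val_two] at this
  convert this using 1
  simp
  module

lemma sphere_subset_hull {a b : ℝ} (ha : 0 < a) (hb : 0 < b) {x : E3} (hx : gB a b x = 1) :
    x ∈ doublePyramid a b := by
  have hconv : Convex ℝ (doublePyramid a b) := convex_convexHull ℝ _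
  have v1 : EuclideanSpace.single 0 a ∈ doublePyramid a b := subset_convexHull ℝ _ (by simp)
  have v2 : EuclideanSpace.single 0 (-b) ∈ doublePyramid a b := subset_convexHull ℝ _ (by simp)
  have v3 : EuclideanSpace.single 1 1 ∈ doublePyramid a b := subset_convexHull ℝ _ (by simp)
  have v4 : EuclideanSpace.single 1 (-1) ∈ doublePyramid a b := subset_convexHull ℝ _ (by simp)
  have v5 : EuclideanSpace.single 2 1 ∈ doublePyramid a b := subset_convexHull ℝ _ (by simp)
  have v6 : EuclideanSpace.single 2 (-1) ∈ doublePyramid a b := subset_convexHull ℝ _ (by simp)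
  rcases mem_tris ha hb hx with ((h | h) | (h | h)) | ((h | h) | (h | h))
  · exact mem_hull_of_tri hconv v1 v3 v5 h
  · exact mem_hull_of_tri hconv v1 v3 v6 h
  · exact mem_hull_of_tri hconv v1 v4 v5 h
  · exact mem_hull_of_tri hconv v1 v4 v6 h
  · exact mem_hull_of_tri hconv v2 v3 v5 h
  · exact mem_hull_of_tri hconv v2 v3 v6 h
  · exact mem_hull_of_tri hconv v2 v4 v5 h
  · exact mem_hull_of_tri hconv v2 v4 v6 h

lemma vertex_zero_mem {a b t : ℝ} (ha : 0 < a) (hb : 0 < b) (h1 : t ≤ a) (h2 : -b ≤ t) :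
    EuclideanSpace.single 0 t ∈ body a b := by
  rw [mem_body]
  unfold gB
  have e0 : (EuclideanSpace.single 0 t : E3) 0 = t := by simp
  have e1 : (EuclideanSpace.single 0 t : E3) 1 = 0 := by simp
  have e2 : (EuclideanSpace.single 0 t : E3) 2 = 0 := by simp
  rw [e0, e1, e2, abs_zero, add_zero, add_zero]
  apply max_le
  · rw [div_le_one ha]; exact h1
  · rw [div_le_one hb]; linarith

lemma body_eq {a b : ℝ} (ha : 0 < a) (hb : 0 < b) : doublePyramid a b = body a b := by
  apply Set.Subset.antisymm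
  · apply convexHull_min _ (convex_body a b)
    intro x hx
    simp only [Set.mem_insert_iff, Set.mem_singleton_iff] at hx
    rcases hx with rfl | rfl | rfl | rfl | rfl | rfl
    · exact vertex_zero_mem ha hb le_rfl (by linarith)
    · exact vertex_zero_mem ha hb (by linarith) le_rfl
    · rw [mem_body]; unfold gB; simp
    · rw [mem_body]; unfold gB; simp
    · rw [mem_body]; unfold gB; simp
    · rw [mem_body]; unfold gB; simp
  · intro x hx
    rw [mem_body] at hx
    obtain ⟨M, hM⟩ : ∃ M, M = max (x 0 / a) (-(x 0) / b) := ⟨_, rfl⟩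
    have hx' : M + |x 1| + |x 2| ≤ 1 := by rw [hM]; exact hx
    obtain ⟨m, hm⟩ : ∃ m, m = 1 - M - |x 2| := ⟨_, rfl⟩
    have hm1 : |x 1| ≤ m := by rw [hm]; linarith
    have hm0 : 0 ≤ m := (abs_nonneg _).trans hm1
    rcases hm0.lt_or_eq with hmpos | hmz
    · obtain ⟨P, hP⟩ : ∃ P : E3, P = WithLp.toLp 2 ![x 0, m, x 2] := ⟨_, rfl⟩
      obtain ⟨Q, hQ⟩ : ∃ Q : E3, Q = WithLp.toLp 2 ![x 0, -m, x 2] := ⟨_, rfl⟩
      have P0 : P 0 = x 0 := by rw [hP]; rfl
      have P1 : P 1 = m := by rw [hP]; rfl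
      have P2 : P 2 = x 2 := by rw [hP]; rfl
      have Q0 : Q 0 = x 0 := by rw [hQ]; rfl
      have Q1 : Q 1 = -m := by rw [hQ]; rfl
      have Q2 : Q 2 = x 2 := by rw [hQ]; rfl
      have gP1 : gB a b P = 1 := by
        unfold gB
        rw [P0, P1, P2, ← hM, abs_of_nonneg hm0, hm]; ring
      have gQ1 : gB a b Q = 1 := by
        unfold gB
        rw [Q0, Q1, Q2, ← hM, abs_neg, abs_of_nonneg hm0, hm]; ring
      have hPm := sphere_subset_hull ha hb gP1
      have hQm := sphere_subset_hull ha hb gQ1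
      have hconv : Convex ℝ (doublePyramid a b) := convex_convexHull ℝ _
      have habs := abs_le.mp hm1
      have := hconv hPm hQm (a := (m + x 1) / (2 * m)) (b := (m - x 1) / (2 * m))
        (div_nonneg (by linarith) (by linarith)) (div_nonneg (by linarith) (by linarith))
        (by field_simp; ring)
      have e : x = ((m + x 1) / (2 * m)) • P + ((m - x 1) / (2 * m)) • Q := by
        ext i
        fin_cases i
        · simp only [Fin.zero_eta, PiLp.add_apply, PiLp.smul_apply, smul_eq_mul, P0, Q0]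
          field_simp; ring
        · simp only [Fin.mk_one, PiLp.add_apply, PiLp.smul_apply, smul_eq_mul, P1, Q1]
          field_simp; ring
        · simp only [Fin.reduceFinMk, PiLp.add_apply, PiLp.smul_apply, smul_eq_mul, P2, Q2]
          field_simp; ring
      rw [e]
      exact this
    · apply sphere_subset_hull ha hb
      have h0 : |x 1| = 0 := le_antisymm (by rw [← hmz] at hm1; exact hm1) (abs_nonneg _)
      unfold gB
      rw [← hM, h0]
      linarith

/-- For all `a, b > 0` with `a ≠ b`, the double pyramid `K = conv {a e₁, -b e₁, ± e₂, ± e₃}` is a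
convex body with the origin in its interior, and `V₂(K)²` is strictly smaller than the right-hand
side `(1/16) (∑ ℓᵢ(K)²)² - (1/8) ∑ ℓᵢ(K)⁴` of the conjectured Heron-type lower bound. -/
theorem result : ∀ a b : ℝ, 0 < a → 0 < b → a ≠ b →
    IsCompact (doublePyramid a b) ∧ Convex ℝ (doublePyramid a b) ∧
    (0 : E3) ∈ interior (doublePyramid a b) ∧
    V2 (doublePyramid a b) ^ 2 <
      (1 / 16) * (∑ i, ell (doublePyramid a b) i ^ 2) ^ 2
        - (1 / 8) * ∑ i, ell (doublePyramid a b) i ^ 4 := by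
  intro a b ha hb hab
  refine ⟨?_, convex_convexHull ℝ _, ?_, ?_⟩
  · exact (Set.toFinite _).isCompact_convexHull ℝ
  · rw [body_eq ha hb]
    apply interior_body_of_lt
    unfold gB
    simp
  · rw [body_eq ha hb]
    have h1 := heronRHS_body ha hb
    unfold heronRHS at h1
    rw [h1]
    have h2 := V2_body_le ha hb
    have h3 : 0 ≤ V2 (body a b) := by
      unfold V2; positivity
    calc V2 (body a b) ^ 2 ≤ (Real.sqrt (1 + 2 * a ^ 2) + Real.sqrt (1 + 2 * b ^ 2)) ^ 2 := by gcongr
      _ < _ := key_ineq ha hb hab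

end Pool.Agent.Results.MP_6df474_gt.HeronCounterexample
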